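import Mathlib

/-!
# NF: geometry of numbers over a number field: statements

`K` is a number field, `n` its degree; `Bx K ρ` is the set of the algebraic integers of `K` all of
whose conjugates have absolute value at most `ρ`.
-/

set_option autoImplicit false

namespace Pool.NF

open Matrix NumberField IsDedekindDomain

section Defs

variable (K : Type) [Field K] [NumberField K]

/-- The algebraic integers all of whose conjugates have absolute value at most `ρ`. -/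
def Bx (ρ : ℝ) : Set (𝓞 K) := {a | ∀ σ : K →+* ℂ, ‖σ (a : K)‖ ≤ ρ}

/-- The degree. -/
noncomputable abbrev dg : ℕ := Module.finrank ℚ K

variable {K}

/-- The number of elements of the residue ring. -/
noncomputable def Ni (I : Ideal (𝓞 K)) : ℕ := Nat.card (𝓞 K ⧸ I)

end Defs

/-- HER: Hermite's reduction.  (Minimal vector, projection orthogonal to it, induction; constant
`(4/3)^(M (M - 1) / 2)`.) -/
def HERStmt : Prop :=
  ∀ M : ℕ, ∃ C : ℝ, ∀ A : Matrix (Fin M) (Fin M) ℝ, A.PosDef →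
    ∃ γ : Matrix (Fin M) (Fin M) ℤ, IsUnit γ.det ∧
      (Monotone fun i => ((γ.map (Int.cast : ℤ → ℝ))ᵀ * A * γ.map (Int.cast : ℤ → ℝ)) i i) ∧
      ∏ i, ((γ.map (Int.cast : ℤ → ℝ))ᵀ * A * γ.map (Int.cast : ℤ → ℝ)) i i ≤ C * A.det

/-- MKN: short vectors in self-dual lattices.  (`g σ` is an orthonormal basis of a hermitian
majorant at `σ`.) -/
def MKNStmt : Prop :=
  ∀ (K : Type) [Field K] [NumberField K] (N : ℕ) (B : ℝ), 0 < B → ∃ C : ℝ,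
    ∀ (Λ : Submodule (𝓞 K) (Fin N → K)) (Γ : Matrix (Fin N) (Fin N) K)
      (g : (K →+* ℂ) → Matrix (Fin N) (Fin N) ℂ), Γᵀ = Γ →
    (∃ E : Matrix (Fin N) (Fin N) K, E.det ≠ 0 ∧ ∀ j, (fun i => E i j) ∈ Λ) →
    (∀ y : Fin N → K, y ∈ Λ ↔
      ∀ x ∈ Λ, x ⬝ᵥ (Γ *ᵥ y) ∈ Set.range (algebraMap (𝓞 K) K)) →
    (∀ σ, g (ComplexEmbedding.conjugate σ) = (g σ).map (starRingEnd ℂ)) →
    (∀ σ, (g σ).det ≠ 0 ∧ B⁻¹ ≤ ‖((g σ)ᵀ * Γ.map σ * g σ).det‖) →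
    ∃ (E : Matrix (Fin N) (Fin N) K) (d : Fin N → ℝ), E.det ≠ 0 ∧ (∀ j, (fun i => E i j) ∈ Λ) ∧
      Monotone d ∧ ∑ i, d i ≤ C ∧
      ∀ σ i j, ‖((g σ)⁻¹ * E.map σ) i j‖ ≤ Real.exp (d j)

/-- BXU: upper bound for the number of the elements of a class in a box, uniform in the ideal.
(Nonzero elements of `I` have norm at least `Ni I`, so a conjugate of absolute value at least
`(Ni I)^(1/n)`; a basis of `𝓞 K` over `ℤ`, packing of cubes.) -/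
def BXUStmt : Prop :=
  ∀ (K : Type) [Field K] [NumberField K], ∃ C : ℝ, 0 < C ∧ ∀ (I : Ideal (𝓞 K)), I ≠ ⊥ →
    ∀ (r : 𝓞 K) (ρ : ℝ), 0 ≤ ρ → {x ∈ Bx K ρ | x - r ∈ I}.Finite ∧
      ({x ∈ Bx K ρ | x - r ∈ I}.ncard : ℝ) ≤ C * (1 + ρ ^ dg K / Ni I)

/-- BXL: lower bound for the number of the elements of a class in a large box.  (Translation from one
class to another; a basis of `𝓞 K` over `ℤ`.) -/
def BXLStmt : Prop :=
  ∀ (K : Type) [Field K] [NumberField K], ∃ c : ℝ, 0 < c ∧ (∀ ρ : ℝ, 1 ≤ ρ →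
      c * ρ ^ dg K ≤ (Bx K ρ).ncard) ∧
    ∀ (I : Ideal (𝓞 K)), I ≠ ⊥ → ∃ ρ₀ : ℝ, ∀ ρ : ℝ, ρ₀ ≤ ρ → ∀ r : 𝓞 K,
      c * (ρ ^ dg K / Ni I) ≤ {x ∈ Bx K ρ | x - r ∈ I}.ncard

/-- BXE: for a fixed ideal the classes are equally distributed in large boxes.  (`Bx (ρ - κ)`
translated by the difference of two representatives is contained in `Bx ρ`.) -/
def BXEStmt : Prop :=
  ∀ (K : Type) [Field K] [NumberField K] (I : Ideal (𝓞 K)), I ≠ ⊥ → ∃ κ : ℝ, 0 < κ ∧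
    ∀ (ρ : ℝ) (r : 𝓞 K), 0 ≤ ρ →
      ((Bx K ρ).ncard : ℝ) ≤ Ni I * {x ∈ Bx K (ρ + κ) | x - r ∈ I}.ncard ∧
      (Ni I : ℝ) * {x ∈ Bx K ρ | x - r ∈ I}.ncard ≤ (Bx K (ρ + κ)).ncard

/-- PRZ: the primes have density zero.  (At most `n` primes above each rational prime `p`, and
`p ≤ Ni P`; the rational primes have density zero since the sum of `1 / p` diverges.) -/
def PRZStmt : Prop :=
  ∀ (K : Type) [Field K] [NumberField K] (ε : ℝ), 0 < ε → ∃ x₀ : ℝ, ∀ x : ℝ, x₀ ≤ x →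
    {P : HeightOneSpectrum (𝓞 K) | (Ni P.asIdeal : ℝ) ≤ x}.Finite ∧
      ({P : HeightOneSpectrum (𝓞 K) | (Ni P.asIdeal : ℝ) ≤ x}.ncard : ℝ) ≤ ε * x

/-- PRS: the sum over the large primes of `1 / (Ni P)^2` is small. -/
def PRSStmt : Prop :=
  ∀ (K : Type) [Field K] [NumberField K] (ε : ℝ), 0 < ε → ∃ b : ℝ,
    ∀ S : Finset (HeightOneSpectrum (𝓞 K)), (∀ P ∈ S, b < (Ni P.asIdeal : ℝ)) →
      ∑ P ∈ S, ((Ni P.asIdeal : ℝ) ^ 2)⁻¹ ≤ ε

/-- NRM: an algebraic integer all of whose conjugates have absolute value less than one is zero, and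
the ideal generated by `a` has norm at most `ρ ^ n` if `a` is in `Bx ρ`. -/
def NRMStmt : Prop :=
  ∀ (K : Type) [Field K] [NumberField K] (a : 𝓞 K) (ρ : ℝ), a ∈ Bx K ρ →
    (ρ < 1 → a = 0) ∧ (a ≠ 0 → (Ni (Ideal.span {a}) : ℝ) ≤ ρ ^ dg K ∧
      ∀ I : Ideal (𝓞 K), a ∈ I → (Ni I : ℝ) ≤ ρ ^ dg K)

end Pool.NF
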