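import Mathlib
import Pool.Agent.H17.T1.MkA
import Pool.Agent.H17.NF.N

/-!
# NF: MKN, part 1: the trace, bases over `ℤ`, Gram matrices of self-dual lattices
-/

set_option autoImplicit false

namespace Pool.NF.MKN

open Matrix Module NumberField

section Tr

variable (K : Type) [Field K] [NumberField K]

theorem exists_delta : ∃ δ : ℤ, δ ≠ 0 ∧ ∀ z : K,
    (∀ r : 𝓞 K, ∃ p : ℤ, Algebra.trace ℚ K (z * algebraMap (𝓞 K) K r) = (p : ℚ)) →
    algebraMap ℚ K (δ : ℚ) * z ∈ Set.range (algebraMap (𝓞 K) K) := by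
  classical
  obtain ⟨s, b, hb⟩ := FiniteDimensional.exists_is_basis_integral ℤ ℚ K
  let b' := (Algebra.traceForm ℚ K).dualBasis (traceForm_nondegenerate ℚ K) b
  obtain ⟨δ, hδ, hint⟩ := exists_integral_multiples ℤ ℚ (Finset.univ.image b')
  refine ⟨δ, hδ, fun z hz => ?_⟩
  have h1 : algebraMap ℚ K (δ : ℚ) * z =
      ∑ i, algebraMap ℚ K (b'.repr z i) * (δ • b' i) := by
    conv_lhs => rw [← b'.sum_repr z, Finset.mul_sum]
    refine Finset.sum_congr rfl fun i _ => ?_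
    rw [Algebra.smul_def, zsmul_eq_mul, map_intCast]
    ring
  have h2 : IsIntegral ℤ (algebraMap ℚ K (δ : ℚ) * z) := by
    rw [h1]
    refine IsIntegral.sum _ fun i _ => IsIntegral.mul ?_ ?_
    · obtain ⟨p, hp⟩ := hz ⟨b i, hb i⟩
      have h2 : b'.repr z i = Algebra.trace ℚ K (z * b i) := by
        rw [LinearMap.BilinForm.dualBasis_repr_apply, Algebra.traceForm_apply]
      have h3 : (algebraMap (𝓞 K) K) ⟨b i, hb i⟩ = b i := rfl
      rw [h3] at hp
      rw [h2, hp, map_intCast]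
      exact isIntegral_algebraMap (R := ℤ) (x := p)
    · exact hint _ (Finset.mem_image_of_mem _ (Finset.mem_univ _))
  exact ⟨⟨_, h2⟩, rfl⟩

end Tr

section Lat

variable {K : Type} [Field K] [NumberField K]

/-- Multiplication by an integer. -/
theorem smul_int {N : ℕ} (Λ : Submodule (𝓞 K) (Fin N → K)) (p : ℤ) (x : Fin N → K)
    (hx : x ∈ Λ) : (p : ℚ) • x ∈ Λ := by
  have h := Λ.smul_mem (p : 𝓞 K) hx
  have : (p : 𝓞 K) • x = (p : ℚ) • x := by
    funext i
    rw [Pi.smul_apply, Pi.smul_apply, Algebra.smul_def, Algebra.smul_def, map_intCast, map_intCast]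
  rwa [this] at h

theorem latbas {N : ℕ} (Λ : Submodule (𝓞 K) (Fin N → K)) (Γ : Matrix (Fin N) (Fin N) K)
    (hΓ : Γ.det ≠ 0)
    (hE : ∃ E : Matrix (Fin N) (Fin N) K, E.det ≠ 0 ∧ ∀ j, (fun i => E i j) ∈ Λ)
    (hd : ∀ y ∈ Λ, ∀ x ∈ Λ, x ⬝ᵥ (Γ *ᵥ y) ∈ Set.range (algebraMap (𝓞 K) K)) :
    ∃ e : Basis (Fin (N * finrank ℚ K)) ℚ (Fin N → K), (∀ i, e i ∈ Λ) ∧
      ∀ x ∈ Λ, ∀ i, ∃ p : ℤ, e.repr x i = (p : ℚ) := by
  classical
  obtain ⟨E, hEd, hEm⟩ := hE
  let L : Submodule ℤ (Fin N → K) := Λ.restrictScalars ℤ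
  have hLmem : ∀ x, x ∈ L ↔ x ∈ Λ := fun x => Iff.rfl
  -- the map into `R ^ N`
  have hmem : ∀ y : L, ∀ j, IsIntegral ℤ (((Eᵀ * Γ) *ᵥ (y : Fin N → K)) j) := by
    intro y j
    obtain ⟨r, hr⟩ := hd _ y.2 _ (hEm j)
    have : ((Eᵀ * Γ) *ᵥ (y : Fin N → K)) j = (fun i => E i j) ⬝ᵥ (Γ *ᵥ (y : Fin N → K)) := by
      rw [← Matrix.mulVec_mulVec]
      rfl
    rw [this, ← hr]
    exact r.2
  let ψ : L →ₗ[ℤ] (Fin N → 𝓞 K) :=
    { toFun := fun y j => ⟨((Eᵀ * Γ) *ᵥ (y : Fin N → K)) j, hmem y j⟩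
      map_add' := by
        intro x y
        funext j
        apply Subtype.ext
        simp only [Submodule.coe_add, Matrix.mulVec_add, Pi.add_apply]
        rfl
      map_smul' := by
        intro p x
        funext j
        apply Subtype.ext
        have h1 : ((p • x : L) : Fin N → K) = (p : K) • (x : Fin N → K) := by
          funext i
          rw [Submodule.coe_smul, Pi.smul_apply, Pi.smul_apply, zsmul_eq_mul, smul_eq_mul]
        have h2 : ∀ z : 𝓞 K, ((p • z : 𝓞 K) : K) = (p : K) * (z : K) := by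
          intro z
          rw [zsmul_eq_mul]
          simp
        simp only [RingHom.id_apply]
        rw [h1, Matrix.mulVec_smul, Pi.smul_apply, smul_eq_mul]
        exact (h2 ⟨_, hmem x j⟩).symm }
  have hdet : (Eᵀ * Γ).det ≠ 0 := by
    rw [Matrix.det_mul, Matrix.det_transpose]
    exact mul_ne_zero hEd hΓ
  have hψ : Function.Injective ψ := by
    rw [injective_iff_map_eq_zero]
    intro y hy
    have h1 : (Eᵀ * Γ) *ᵥ (y : Fin N → K) = 0 := by
      funext j
      have := congrFun hy j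
      have := congrArg Subtype.val this
      exact this
    apply Subtype.ext
    exact Matrix.eq_zero_of_mulVec_eq_zero hdet h1
  have hnoeth : IsNoetherian ℤ (Fin N → 𝓞 K) := inferInstance
  have hLfin : Module.Finite ℤ L := Module.Finite.of_injective ψ hψ
  have htf : Module.IsTorsionFree ℤ L := inferInstance
  have hfree : Module.Free ℤ L := inferInstance
  let b := Module.Free.chooseBasis ℤ L
  have hli : LinearIndependent ℚ (fun i => ((b i : L) : Fin N → K)) := by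
    rw [← LinearIndependent.iff_fractionRing ℤ ℚ]
    exact b.linearIndependent.map' L.subtype (by simp)
  have hin : ∀ x ∈ Λ, x ∈ Submodule.span ℚ (Set.range (fun i => ((b i : L) : Fin N → K))) := by
    intro x hx
    have h1 := b.sum_repr (⟨x, hx⟩ : L)
    have h2 := congrArg (fun y : L => (y : Fin N → K)) h1
    simp only [AddSubmonoidClass.coe_finsetSum, Submodule.coe_smul] at h2
    rw [← h2]
    refine Submodule.sum_mem _ fun i _ => ?_
    rw [← algebraMap_smul ℚ (b.repr (⟨x, hx⟩ : L) i) ((b i : L) : Fin N → K)]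
    exact Submodule.smul_mem _ _ (Submodule.subset_span ⟨i, rfl⟩)
  have hsp : ⊤ ≤ Submodule.span ℚ (Set.range (fun i => ((b i : L) : Fin N → K))) := by
    intro x _
    have hx : x = ∑ j, (E⁻¹ *ᵥ x) j • (fun i => E i j) := by
      have h1 : E *ᵥ (E⁻¹ *ᵥ x) = x := by
        rw [Matrix.mulVec_mulVec, Matrix.mul_nonsing_inv _ (isUnit_iff_ne_zero.mpr hEd),
          Matrix.one_mulVec]
      conv_lhs => rw [← h1]
      funext i
      simp only [Matrix.mulVec, dotProduct, Finset.sum_apply, Pi.smul_apply, smul_eq_mul]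
      refine Finset.sum_congr rfl fun j _ => ?_
      ring
    rw [hx]
    refine Submodule.sum_mem _ fun j _ => ?_
    set a := (E⁻¹ *ᵥ x) j
    obtain ⟨s, hs, hsa⟩ := exists_integral_multiples ℤ ℚ ({a} : Finset K)
    have hsa' : IsIntegral ℤ (s • a) := hsa a (Finset.mem_singleton_self a)
    obtain ⟨r, hr⟩ : ∃ r : 𝓞 K, algebraMap (𝓞 K) K r = (s : K) * a :=
      ⟨⟨s • a, hsa'⟩, zsmul_eq_mul _ _⟩
    have h3 : a • (fun i => E i j) = ((s : ℚ))⁻¹ • (r • (fun i => E i j)) := by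
      funext i
      have hs'' : (s : K) ≠ 0 := by exact_mod_cast hs
      simp only [Pi.smul_apply, smul_eq_mul]
      rw [Algebra.smul_def, Algebra.smul_def, hr, map_inv₀, map_intCast]
      field_simp
    rw [h3]
    exact Submodule.smul_mem _ _ (hin _ (Λ.smul_mem _ (hEm j)))
  let e0 := Basis.mk hli hsp
  have hcard : Fintype.card (Module.Free.ChooseBasisIndex ℤ L) = N * finrank ℚ K := by
    rw [← Module.finrank_eq_card_basis e0, ← Module.finrank_mul_finrank ℚ K (Fin N → K),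
      Module.finrank_fin_fun]
    ring
  let eq := Fintype.equivFinOfCardEq hcard
  refine ⟨e0.reindex eq, ?_, ?_⟩
  · intro i
    rw [Basis.reindex_apply, Basis.mk_apply]
    exact (b _).2
  · intro x hx i
    refine ⟨b.repr (⟨x, hx⟩ : L) (eq.symm i), ?_⟩
    rw [Basis.repr_reindex_apply]
    have h1 := b.sum_repr (⟨x, hx⟩ : L)
    have h2 := congrArg (fun y : L => (y : Fin N → K)) h1
    simp only [AddSubmonoidClass.coe_finsetSum, Submodule.coe_smul] at h2
    have h3 : x = ∑ l, ((b.repr (⟨x, hx⟩ : L) l : ℤ) : ℚ) • e0 l := by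
      refine Eq.trans h2.symm ?_
      refine Finset.sum_congr rfl fun l _ => ?_
      rw [Basis.mk_apply, ← algebraMap_smul ℚ (b.repr (⟨x, hx⟩ : L) l) ((b l : L) : Fin N → K)]
      rfl
    have h5 := congrArg (fun v => e0.repr v (eq.symm i)) h3
    simp only [map_sum, map_smul, Finsupp.coe_finsetSum, Finset.sum_apply, Finsupp.coe_smul,
      Pi.smul_apply, Basis.repr_self, Finsupp.single_apply, smul_eq_mul, mul_ite, mul_one, mul_zero,
      Finset.sum_ite_eq', Finset.mem_univ, if_true] at h5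
    exact h5

end Lat

section Gram

variable {K : Type} [Field K] [NumberField K]

/-- The bilinear form `Tr (xᵀ Γ y)`. -/
noncomputable def Bf {N : ℕ} (Γ : Matrix (Fin N) (Fin N) K) :
    LinearMap.BilinForm ℚ (Fin N → K) :=
  LinearMap.mk₂ ℚ (fun x y => Algebra.trace ℚ K (x ⬝ᵥ (Γ *ᵥ y)))
    (fun x y z => by rw [add_dotProduct, map_add])
    (fun a x y => by rw [smul_dotProduct, map_smul])
    (fun x y z => by rw [Matrix.mulVec_add, dotProduct_add, map_add])
    (fun a x y => by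
      rw [Matrix.mulVec_smul, dotProduct_smul, map_smul])

theorem Bf_apply {N : ℕ} (Γ : Matrix (Fin N) (Fin N) K) (x y : Fin N → K) :
    Bf Γ x y = Algebra.trace ℚ K (x ⬝ᵥ (Γ *ᵥ y)) := rfl

/-- The determinant of the Gram matrix of a self-dual lattice. -/
theorem gramA {N M : ℕ} (Λ : Submodule (𝓞 K) (Fin N → K)) (Γ : Matrix (Fin N) (Fin N) K)
    (hself : ∀ y : Fin N → K, y ∈ Λ ↔ ∀ x ∈ Λ, x ⬝ᵥ (Γ *ᵥ y) ∈ Set.range (algebraMap (𝓞 K) K))
    (e : Basis (Fin M) ℚ (Fin N → K)) (he : ∀ i, e i ∈ Λ)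
    (hr : ∀ x ∈ Λ, ∀ i, ∃ p : ℤ, e.repr x i = (p : ℚ))
    (δ : ℤ) (hδ : δ ≠ 0)
    (hδ2 : ∀ z : K, (∀ r : 𝓞 K, ∃ p : ℤ,
      Algebra.trace ℚ K (z * algebraMap (𝓞 K) K r) = (p : ℚ)) →
      algebraMap ℚ K (δ : ℚ) * z ∈ Set.range (algebraMap (𝓞 K) K))
    (hdet : (LinearMap.BilinForm.toMatrix e (Bf Γ)).det ≠ 0) :
    |(LinearMap.BilinForm.toMatrix e (Bf Γ)).det| ≤ |(δ : ℚ)| ^ M := by
  classical
  set G := LinearMap.BilinForm.toMatrix e (Bf Γ) with hG
  have hGH : G * G⁻¹ = 1 := Matrix.mul_nonsing_inv _ (isUnit_iff_ne_zero.mpr hdet)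
  let f : Fin M → (Fin N → K) := fun j => ∑ i, G⁻¹ i j • e i
  have hf1 : ∀ l j, Bf Γ (e l) (f j) = if l = j then 1 else 0 := by
    intro l j
    have h1 : Bf Γ (e l) (f j) = (G * G⁻¹) l j := by
      simp only [f, map_sum, map_smul, Matrix.mul_apply, smul_eq_mul]
      refine Finset.sum_congr rfl fun i _ => ?_
      rw [hG, LinearMap.BilinForm.toMatrix_apply]
      ring
    rw [h1, hGH, Matrix.one_apply]
  have hf2 : ∀ x, ∀ j, Bf Γ x (f j) = e.repr x j := by
    intro x j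
    conv_lhs => rw [← e.sum_repr x]
    simp only [map_sum, map_smul, LinearMap.sum_apply, LinearMap.smul_apply, hf1, smul_eq_mul,
      mul_ite, mul_one, mul_zero, Finset.sum_ite_eq', Finset.mem_univ, if_true]
  have hf3 : ∀ j, (δ : ℚ) • f j ∈ Λ := by
    intro j
    rw [hself]
    intro x hx
    have h1 := hδ2 (x ⬝ᵥ (Γ *ᵥ f j)) (by
      intro r
      obtain ⟨p, hp⟩ := hr _ (Λ.smul_mem r hx) j
      refine ⟨p, ?_⟩
      rw [← hp, ← hf2, Bf_apply]
      have : (r • x) = (algebraMap (𝓞 K) K r) • x := by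
        funext i
        rw [Pi.smul_apply, Pi.smul_apply, Algebra.smul_def, smul_eq_mul]
      rw [this, smul_dotProduct, smul_eq_mul]
      congr 1
      ring)
    rw [Matrix.mulVec_smul, dotProduct_smul, Algebra.smul_def]
    exact h1
  have hH : ∀ i j, ∃ p : ℤ, (δ : ℚ) * G⁻¹ i j = (p : ℚ) := by
    intro i j
    obtain ⟨p, hp⟩ := hr _ (hf3 j) i
    refine ⟨p, ?_⟩
    rw [← hp, map_smul, Finsupp.smul_apply, smul_eq_mul]
    congr 1
    simp only [f, map_sum, map_smul, Finsupp.coe_finsetSum, Finset.sum_apply, Finsupp.coe_smul,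
      Pi.smul_apply, Basis.repr_self, Finsupp.single_apply, smul_eq_mul, mul_ite, mul_one, mul_zero,
      Finset.sum_ite_eq', Finset.mem_univ, if_true]
  choose H hH' using hH
  have h1 : (Matrix.of H).map (Int.cast : ℤ → ℚ) = (δ : ℚ) • G⁻¹ := by
    ext i j
    rw [Matrix.smul_apply, smul_eq_mul, hH']
    rfl
  have h2 : (((Matrix.of H).det : ℤ) : ℚ) = (δ : ℚ) ^ M * (G⁻¹).det := by
    have h3 := RingHom.map_det (Int.castRingHom ℚ) (Matrix.of H)
    have h4 : (Int.castRingHom ℚ).mapMatrix (Matrix.of H) = (Matrix.of H).map (Int.cast : ℤ → ℚ) :=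
      rfl
    rw [h4, h1, Matrix.det_smul, Fintype.card_fin] at h3
    exact h3
  have h3 : G.det * (G⁻¹).det = 1 := by
    rw [← Matrix.det_mul, hGH, Matrix.det_one]
  have h4 : (δ : ℚ) ^ M = G.det * (((Matrix.of H).det : ℤ) : ℚ) := by
    rw [h2]
    linear_combination (-(δ : ℚ) ^ M) * h3
  have hδ' : (δ : ℚ) ≠ 0 := by exact_mod_cast hδ
  have h5 : (Matrix.of H).det ≠ 0 := by
    intro h0
    rw [h0, Int.cast_zero, mul_zero] at h4
    exact pow_ne_zero _ hδ' h4
  have h6 : (1 : ℚ) ≤ |(((Matrix.of H).det : ℤ) : ℚ)| := by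
    exact_mod_cast Int.one_le_abs h5
  rw [← abs_pow, h4, abs_mul]
  exact le_mul_of_one_le_right (abs_nonneg _) h6

theorem nondeg {N M : ℕ} (s : Basis (Fin M) ℚ (Fin N → K)) (Γ : Matrix (Fin N) (Fin N) K)
    (hΓ : Γ.det ≠ 0) : (LinearMap.BilinForm.toMatrix s (Bf Γ)).det ≠ 0 := by
  classical
  intro h0
  obtain ⟨v, hv, hv0⟩ := Matrix.exists_mulVec_eq_zero_iff.mpr h0
  set y := ∑ j, v j • s j with hy
  have hy0 : y ≠ 0 := by
    intro hy0
    apply hv
    funext j
    have h1 := congrArg (fun w => s.repr w j) (hy.symm.trans hy0)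
    simpa [Finsupp.single_apply] using h1
  have h1 : ∀ i, Bf Γ (s i) y = 0 := by
    intro i
    have h2 := congrFun hv0 i
    simp only [Matrix.mulVec, dotProduct, LinearMap.BilinForm.toMatrix_apply,
      Pi.zero_apply] at h2
    rw [hy]
    simp only [map_sum, map_smul, smul_eq_mul]
    rw [← h2]
    refine Finset.sum_congr rfl fun j _ => ?_
    ring
  have h2 : ∀ x, Bf Γ x y = 0 := by
    intro x
    rw [← s.sum_repr x]
    simp only [map_sum, map_smul, LinearMap.sum_apply, LinearMap.smul_apply, h1, smul_zero,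
      Finset.sum_const_zero]
  have hΓy : Γ *ᵥ y ≠ 0 := fun h => hy0 (Matrix.eq_zero_of_mulVec_eq_zero hΓ h)
  obtain ⟨i, hi⟩ := Function.ne_iff.mp hΓy
  obtain ⟨z, hz⟩ := Algebra.trace_surjective ℚ K (1 : ℚ)
  have h3 := h2 (Pi.single i (z / (Γ *ᵥ y) i))
  rw [Bf_apply, single_dotProduct, div_mul_cancel₀ _ hi, hz] at h3
  exact one_ne_zero h3

/-- A monotone sequence dominates its subsequence. -/
theorem sumle {N n : ℕ} (d : Fin (N * n) → ℝ) (hd : Monotone d) (hn : 0 < n) :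
    (n : ℝ) * ∑ j : Fin N, d (finProdFinEquiv (j, ⟨0, hn⟩)) ≤ ∑ i, d i := by
  rw [← finProdFinEquiv.sum_comp, Fintype.sum_prod_type, Finset.mul_sum]
  refine Finset.sum_le_sum fun j _ => ?_
  have : ∀ r : Fin n, d (finProdFinEquiv (j, ⟨0, hn⟩)) ≤ d (finProdFinEquiv (j, r)) := by
    intro r
    apply hd
    rw [Fin.le_def]
    simp [finProdFinEquiv]
  calc (n : ℝ) * d (finProdFinEquiv (j, ⟨0, hn⟩))
      = ∑ _r : Fin n, d (finProdFinEquiv (j, ⟨0, hn⟩)) := by simp
    _ ≤ _ := Finset.sum_le_sum fun r _ => this r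

end Gram

end Pool.NF.MKN
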