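import Pool.Agent.H17.NF.HER
import Pool.Agent.H17.NF.MkN1

/-!
# NF: MKN, part 2: the hermitian majorant
-/

set_option autoImplicit false

namespace Pool.NF

open Matrix Module NumberField

namespace MKN

section Cx

variable {K : Type} [Field K] [NumberField K]

theorem trace_sum (x : K) : ((Algebra.trace ℚ K x : ℚ) : ℂ) = ∑ σ : K →+* ℂ, σ x := by
  have h := trace_eq_sum_embeddings ℂ (K := ℚ) (L := K) (x := x)
  rw [eq_ratCast] at h
  rw [h]
  exact (Fintype.sum_equiv (RingHom.equivRatAlgHom K ℂ) _ _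
    (fun φ => by simp [RingHom.equivRatAlgHom_apply])).symm

/-- The matrix of the conjugates. -/
def Wm {N M : ℕ} (e : Fin M → Fin N → K) : Matrix (Fin N × (K →+* ℂ)) (Fin M) ℂ :=
  Matrix.of fun p j => p.2 (e j p.1)

/-- The coordinates with respect to `g`. -/
noncomputable def Vm {N M : ℕ} (g : (K →+* ℂ) → Matrix (Fin N) (Fin N) ℂ) (e : Fin M → Fin N → K) :
    Matrix (Fin N × (K →+* ℂ)) (Fin M) ℂ :=
  Matrix.of fun p j => ((g p.2)⁻¹ *ᵥ fun i => p.2 (e j i)) p.1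

theorem bd_mul {N M : ℕ} {X : Type} [Fintype X] [DecidableEq X]
    (A : X → Matrix (Fin N) (Fin N) ℂ) (W : Matrix (Fin N × X) (Fin M) ℂ) (i : Fin N) (σ : X)
    (k : Fin M) : (blockDiagonal A * W) (i, σ) k = ∑ l, A σ i l * W (l, σ) k := by
  rw [mul_apply, Fintype.sum_prod_type]
  refine Finset.sum_congr rfl fun l _ => ?_
  simp [blockDiagonal_apply, ite_mul]

theorem Wm_eq {N M : ℕ} (g : (K →+* ℂ) → Matrix (Fin N) (Fin N) ℂ) (hg : ∀ σ, (g σ).det ≠ 0)
    (e : Fin M → Fin N → K) : by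
      classical
      exact Wm e = blockDiagonal g * Vm g e := by
  classical
  ext ⟨i, σ⟩ j
  rw [bd_mul]
  have h1 : ∑ l, g σ i l * Vm g e (l, σ) j = (g σ *ᵥ ((g σ)⁻¹ *ᵥ fun i => σ (e j i))) i := rfl
  rw [h1, mulVec_mulVec, mul_nonsing_inv _ (isUnit_iff_ne_zero.mpr (hg σ)), one_mulVec]
  rfl

theorem gram_eq {N M : ℕ} (Γ : Matrix (Fin N) (Fin N) K) (e : Basis (Fin M) ℚ (Fin N → K)) : by
    classical
    exact (LinearMap.BilinForm.toMatrix e (Bf Γ)).map (Rat.cast : ℚ → ℂ) =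
      (Wm (fun j => e j))ᵀ * (blockDiagonal (fun σ : K →+* ℂ => Γ.map σ) * Wm (fun j => e j)) := by
  classical
  ext j k
  rw [map_apply, LinearMap.BilinForm.toMatrix_apply, Bf_apply, trace_sum, mul_apply,
    Fintype.sum_prod_type_right]
  refine Finset.sum_congr rfl fun σ _ => ?_
  simp only [dotProduct, mulVec, map_sum, map_mul, transpose_apply]
  refine Finset.sum_congr rfl fun i _ => ?_
  rw [bd_mul]
  rfl

/-- The determinant formula. -/
theorem det_eq {N M : ℕ} (g : (K →+* ℂ) → Matrix (Fin N) (Fin N) ℂ) (hg : ∀ σ, (g σ).det ≠ 0)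
    (Γ : Matrix (Fin N) (Fin N) K) (e : Basis (Fin M) ℚ (Fin N → K))
    (u : Fin M ≃ Fin N × (K →+* ℂ)) :
    (((LinearMap.BilinForm.toMatrix e (Bf Γ)).det : ℚ) : ℂ) =
      ((Vm g (fun j => e j)).submatrix u id).det ^ 2 *
        ∏ σ, ((g σ)ᵀ * Γ.map σ * g σ).det := by
  classical
  set V := Vm g (fun j => e j) with hV
  have h1 : (LinearMap.BilinForm.toMatrix e (Bf Γ)).map (Rat.cast : ℚ → ℂ) =
      Vᵀ * (blockDiagonal (fun σ : K →+* ℂ => (g σ)ᵀ * Γ.map σ * g σ)) * V := by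
    rw [gram_eq Γ e, Wm_eq g hg, ← hV, blockDiagonal_mul, blockDiagonal_mul,
      ← blockDiagonal_transpose, transpose_mul]
    simp only [Matrix.mul_assoc]
  have h2 : Vᵀ * (blockDiagonal (fun σ : K →+* ℂ => (g σ)ᵀ * Γ.map σ * g σ)) * V =
      (V.submatrix u id)ᵀ * ((blockDiagonal (fun σ : K →+* ℂ => (g σ)ᵀ * Γ.map σ * g σ)).submatrix
        u u) * V.submatrix u id := by
    rw [transpose_submatrix, submatrix_mul_equiv, submatrix_mul_equiv, submatrix_id_id]
  have h3 : ((LinearMap.BilinForm.toMatrix e (Bf Γ)).map (Rat.cast : ℚ → ℂ)).det =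
      (((LinearMap.BilinForm.toMatrix e (Bf Γ)).det : ℚ) : ℂ) := by
    have := RingHom.map_det (Rat.castHom ℂ) (LinearMap.BilinForm.toMatrix e (Bf Γ))
    exact this.symm
  rw [← h3, h1, h2, det_mul, det_mul, det_transpose, det_submatrix_equiv_self, det_blockDiagonal]
  ring

/-- Complex conjugation. -/
theorem Vm_conj {N M : ℕ} (g : (K →+* ℂ) → Matrix (Fin N) (Fin N) ℂ) (hg : ∀ σ, (g σ).det ≠ 0)
    (hc : ∀ σ, g (ComplexEmbedding.conjugate σ) = (g σ).map (starRingEnd ℂ))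
    (e : Fin M → Fin N → K) (i : Fin N) (σ : K →+* ℂ) (j : Fin M) :
    Vm g e (i, ComplexEmbedding.conjugate σ) j = starRingEnd ℂ (Vm g e (i, σ) j) := by
  have h1 : (g (ComplexEmbedding.conjugate σ))⁻¹ = ((g σ)⁻¹).map (starRingEnd ℂ) := by
    apply inv_eq_left_inv
    rw [hc, ← Matrix.map_mul, nonsing_inv_mul _ (isUnit_iff_ne_zero.mpr (hg σ))]
    exact Matrix.map_one _ (map_zero _) (map_one _)
  simp only [Vm, of_apply]
  rw [h1]
  simp only [mulVec, dotProduct, map_apply, map_sum, map_mul, ComplexEmbedding.conjugate_coe_eq]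

end Cx

section Re

variable {P : Type} [Fintype P] {M : ℕ}

/-- The real part of the Gram matrix. -/
noncomputable def Ar (V : Matrix P (Fin M) ℂ) : Matrix (Fin M) (Fin M) ℝ :=
  Matrix.of fun j k => ((Vᴴ * V) j k).re

theorem Ar_map (V : Matrix P (Fin M) ℂ)
    (hV : ∃ c : P ≃ P, ∀ p j, V (c p) j = starRingEnd ℂ (V p j)) :
    (Ar V).map ((↑) : ℝ → ℂ) = Vᴴ * V := by
  obtain ⟨c, hc⟩ := hV
  ext j k
  rw [map_apply, Ar, of_apply]
  have h1 : starRingEnd ℂ ((Vᴴ * V) j k) = (Vᴴ * V) j k := by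
    rw [mul_apply, map_sum, ← c.sum_comp]
    conv_rhs => rw [← c.sum_comp, ← c.sum_comp]
    refine Finset.sum_congr rfl fun p _ => ?_
    simp only [conjTranspose_apply, map_mul, hc, Complex.star_def, Complex.conj_conj]
  exact Complex.conj_eq_iff_re.mp h1

theorem Ar_quad (V : Matrix P (Fin M) ℂ)
    (hV : ∃ c : P ≃ P, ∀ p j, V (c p) j = starRingEnd ℂ (V p j)) (x : Fin M → ℝ) :
    x ⬝ᵥ (Ar V *ᵥ x) = ∑ p, ‖(V *ᵥ fun j => (x j : ℂ)) p‖ ^ 2 := by
  apply Complex.ofReal_injective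
  set xc : Fin M → ℂ := fun j => (x j : ℂ) with hxc
  have h1 : ((x ⬝ᵥ (Ar V *ᵥ x) : ℝ) : ℂ) = xc ⬝ᵥ ((Ar V).map ((↑) : ℝ → ℂ) *ᵥ xc) := by
    simp only [dotProduct, mulVec, map_apply, hxc, Complex.ofReal_sum, Complex.ofReal_mul]
  have h2 : star xc = xc := by
    funext j
    simp [hxc]
  rw [h1, Ar_map V hV, ← mulVec_mulVec, dotProduct_mulVec, ← h2, ← star_mulVec, h2]
  simp only [dotProduct, Pi.star_apply, Complex.star_def, Complex.conj_mul', Complex.ofReal_sum,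
    Complex.ofReal_pow]

theorem Ar_sub (V : Matrix P (Fin M) ℂ) (u : Fin M ≃ P) :
    (V.submatrix u id)ᴴ * (V.submatrix u id) = Vᴴ * V := by
  rw [conjTranspose_submatrix, submatrix_mul_equiv, submatrix_id_id]

theorem Ar_det (V : Matrix P (Fin M) ℂ)
    (hV : ∃ c : P ≃ P, ∀ p j, V (c p) j = starRingEnd ℂ (V p j)) (u : Fin M ≃ P) :
    (Ar V).det = ‖(V.submatrix u id).det‖ ^ 2 := by
  apply Complex.ofReal_injective
  have h1 : (((Ar V).det : ℝ) : ℂ) = ((Ar V).map ((↑) : ℝ → ℂ)).det := by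
    have := RingHom.map_det Complex.ofRealHom (Ar V)
    exact this
  rw [h1, Ar_map V hV, ← Ar_sub V u, det_mul, det_conjTranspose, Complex.star_def,
    Complex.conj_mul']
  push_cast
  rfl

theorem Ar_pos (V : Matrix P (Fin M) ℂ)
    (hV : ∃ c : P ≃ P, ∀ p j, V (c p) j = starRingEnd ℂ (V p j)) (u : Fin M ≃ P)
    (hd : (V.submatrix u id).det ≠ 0) : (Ar V).PosDef := by
  refine PosDef.of_dotProduct_mulVec_pos ?_ ?_
  · have h1 : (Vᴴ * V).IsHermitian := isHermitian_conjTranspose_mul_self V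
    ext j k
    rw [conjTranspose_apply, star_trivial, Ar, of_apply, of_apply, ← h1.apply k j]
    simp
  · intro x hx
    rw [star_trivial, Ar_quad V hV]
    have hne : (V *ᵥ fun j => (x j : ℂ)) ≠ 0 := by
      intro h0
      apply hx
      have h1 : (V.submatrix u id) *ᵥ (fun j => (x j : ℂ)) = 0 := by
        funext i
        have := congrFun h0 (u i)
        simpa [mulVec, dotProduct] using this
      have h2 := Matrix.eq_zero_of_mulVec_eq_zero hd h1
      funext j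
      have := congrFun h2 j
      simpa using this
    obtain ⟨p, hp⟩ := Function.ne_iff.mp hne
    refine Finset.sum_pos' (fun _ _ => by positivity) ⟨p, Finset.mem_univ _, ?_⟩
    have : 0 < ‖(V *ᵥ fun j => (x j : ℂ)) p‖ := norm_pos_iff.mpr hp
    positivity

end Re

end MKN

open MKN in
/-- MKN. -/
theorem mkn : MKNStmt := by
  classical
  intro K _ _ N B hB
  obtain ⟨δ, hδ, hδ2⟩ := exists_delta K
  obtain ⟨C, hC⟩ := her (N * finrank ℚ K)
  have hnpos : 0 < finrank ℚ K := Module.finrank_pos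
  have hn1 : (1 : ℝ) ≤ (finrank ℚ K : ℝ) := by exact_mod_cast hnpos
  set M := N * finrank ℚ K with hM
  set C1 : ℝ := C * (B ^ finrank ℚ K * |(δ : ℝ)| ^ M) with hC1
  refine ⟨|Real.log C1|, ?_⟩
  intro Λ Γ g hΓ hE hself hconj hgB
  have hg : ∀ σ, (g σ).det ≠ 0 := fun σ => (hgB σ).1
  -- `Γ` is nondegenerate
  have hΓdet : Γ.det ≠ 0 := by
    intro h0
    obtain ⟨σ⟩ : Nonempty (K →+* ℂ) := inferInstance
    have h1 := (hgB σ).2
    have h2 : (Γ.map σ).det = σ Γ.det := (RingHom.map_det σ Γ).symm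
    rw [det_mul, det_mul, h2, h0, map_zero, mul_zero, zero_mul, norm_zero] at h1
    have := inv_pos.mpr hB
    linarith
  obtain ⟨e, he, hr⟩ := latbas Λ Γ hΓdet hE (fun y hy x hx => (hself y).mp hy x hx)
  have hGd := nondeg e Γ hΓdet
  have hGb := gramA Λ Γ hself e he hr δ hδ hδ2 hGd
  have hcard : Fintype.card (Fin N × (K →+* ℂ)) = M := by
    rw [Fintype.card_prod, Fintype.card_fin, NumberField.Embeddings.card, hM]
  let u : Fin M ≃ Fin N × (K →+* ℂ) := (Fintype.equivFinOfCardEq hcard).symm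
  set V := Vm g (fun j => e j) with hV
  have hdet := det_eq g hg Γ e u
  rw [← hV] at hdet
  have hVd : (V.submatrix u id).det ≠ 0 := by
    intro h0
    rw [h0] at hdet
    have h1 : (((LinearMap.BilinForm.toMatrix e (Bf Γ)).det : ℚ) : ℂ) = 0 := by
      rw [hdet]; ring
    exact hGd (by exact_mod_cast h1)
  have hVc : ∃ c : (Fin N × (K →+* ℂ)) ≃ (Fin N × (K →+* ℂ)),
      ∀ p j, V (c p) j = starRingEnd ℂ (V p j) := by
    refine ⟨(Equiv.refl _).prodCongr (Function.Involutive.toPerm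
      (ComplexEmbedding.conjugate : (K →+* ℂ) → (K →+* ℂ))
      (ComplexEmbedding.involutive_conjugate K)), ?_⟩
    rintro ⟨i, σ⟩ j
    exact Vm_conj g hg hconj _ i σ j
  have hApos := Ar_pos V hVc u hVd
  obtain ⟨γ, hγ, hmono, hprod⟩ := hC (Ar V) hApos
  set q : Fin M → ℝ := fun i =>
    ((γ.map (Int.cast : ℤ → ℝ))ᵀ * Ar V * γ.map (Int.cast : ℤ → ℝ)) i i with hq
  -- the determinant
  have hAd : (Ar V).det ≤ B ^ finrank ℚ K * |(δ : ℝ)| ^ M := by
    rw [Ar_det V hVc u]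
    have h1 : ‖(((LinearMap.BilinForm.toMatrix e (Bf Γ)).det : ℚ) : ℂ)‖ ≤ |(δ : ℝ)| ^ M := by
      have h2 : ‖(((LinearMap.BilinForm.toMatrix e (Bf Γ)).det : ℚ) : ℂ)‖ =
          ((|(LinearMap.BilinForm.toMatrix e (Bf Γ)).det| : ℚ) : ℝ) := by
        rw [Rat.cast_abs, ← Complex.ofReal_ratCast, Complex.norm_real, Real.norm_eq_abs]
      rw [h2]
      have h3 : ((|(LinearMap.BilinForm.toMatrix e (Bf Γ)).det| : ℚ) : ℝ) ≤
          (((|(δ : ℚ)| ^ M : ℚ)) : ℝ) := by exact_mod_cast hGb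
      refine h3.trans (le_of_eq ?_)
      push_cast
      rfl
    rw [hdet, norm_mul, norm_pow, norm_prod] at h1
    have h4 : (B⁻¹) ^ finrank ℚ K ≤ ∏ σ : K →+* ℂ, ‖((g σ)ᵀ * Γ.map σ * g σ).det‖ := by
      have h5 : (B⁻¹) ^ finrank ℚ K = ∏ _σ : K →+* ℂ, B⁻¹ := by
        rw [Finset.prod_const, Finset.card_univ, NumberField.Embeddings.card]
      rw [h5]
      exact Finset.prod_le_prod (fun _ _ => (inv_pos.mpr hB).le) (fun σ _ => (hgB σ).2)
    have h6 : ‖(V.submatrix u id).det‖ ^ 2 * (B⁻¹) ^ finrank ℚ K ≤ |(δ : ℝ)| ^ M :=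
      (mul_le_mul_of_nonneg_left h4 (by positivity)).trans h1
    have h7 : (0 : ℝ) < B ^ finrank ℚ K := by positivity
    calc ‖(V.submatrix u id).det‖ ^ 2
        = B ^ finrank ℚ K * (‖(V.submatrix u id).det‖ ^ 2 * (B⁻¹) ^ finrank ℚ K) := by
          rw [inv_pow]
          field_simp
      _ ≤ B ^ finrank ℚ K * |(δ : ℝ)| ^ M := mul_le_mul_of_nonneg_left h6 h7.le
  have hAdpos : 0 < (Ar V).det := hApos.det_pos
  have hqpos : ∀ j, 0 < q j := by
    intro j
    have := (HER.posDef_trans (Ar V) hApos γ hγ).diag_pos (i := j)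
    exact this
  have hCpos : 0 < C := by
    have h1 : 0 < ∏ i, q i := Finset.prod_pos fun i _ => hqpos i
    have h2 : 0 < C * (Ar V).det := lt_of_lt_of_le h1 hprod
    exact pos_of_mul_pos_left h2 hAdpos.le
  have hprod1 : ∏ i, q i ≤ C1 := hprod.trans (mul_le_mul_of_nonneg_left hAd hCpos.le)
  -- the new basis
  let e' : Fin M → (Fin N → K) := fun j => ∑ i, ((γ i j : ℤ) : ℚ) • e i
  have he'Λ : ∀ j, e' j ∈ Λ := by
    intro j
    exact Submodule.sum_mem _ fun i _ => smul_int Λ (γ i j) _ (he i)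
  have hγ0 : (γ.map (Int.cast : ℤ → ℚ)).det ≠ 0 := by
    have h3 := RingHom.map_det (Int.castRingHom ℚ) γ
    have h4 : (γ.map (Int.cast : ℤ → ℚ)).det = ((γ.det : ℤ) : ℚ) := h3.symm
    rw [h4]
    exact_mod_cast hγ.ne_zero
  have he'li : LinearIndependent ℚ e' := by
    have h3 : e' = fun j => Matrix.toLin e e (γ.map (Int.cast : ℤ → ℚ)) (e j) := by
      funext j
      rw [Matrix.toLin_self]
      rfl
    rw [h3]
    exact e.linearIndependent.map' (Matrix.toLin e e (γ.map (Int.cast : ℤ → ℚ)))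
      (Matrix.ker_toLin_eq_bot e _ (isUnit_iff_ne_zero.mpr hγ0))
  have hqe : ∀ j, q j = ∑ p, ‖Vm g e' p j‖ ^ 2 := by
    intro j
    have h1 : q j = (fun i => (γ i j : ℝ)) ⬝ᵥ (Ar V *ᵥ fun i => (γ i j : ℝ)) :=
      HER.Qf_col (Ar V) γ j
    rw [h1, Ar_quad V hVc]
    refine Finset.sum_congr rfl fun p _ => ?_
    congr 2
    have h2 : (fun i => p.2 (e' j i)) = ∑ l, ((γ l j : ℤ) : ℂ) • (fun i => p.2 (e l i)) := by
      funext i
      simp only [e', Finset.sum_apply, Pi.smul_apply, map_sum, Rat.smul_def, map_mul, smul_eq_mul,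
        Rat.cast_intCast, map_intCast]
    have h3 : Vm g e' p j = ((g p.2)⁻¹ *ᵥ fun i => p.2 (e' j i)) p.1 := rfl
    rw [h3, h2, mulVec_sum, Finset.sum_apply]
    have h6 : (V *ᵥ fun i => ((γ i j : ℝ) : ℂ)) p = ∑ l, V p l * ((γ l j : ℝ) : ℂ) := rfl
    rw [h6]
    refine Finset.sum_congr rfl fun l _ => ?_
    have h4 : V p l = ((g p.2)⁻¹ *ᵥ fun i => p.2 (e l i)) p.1 := rfl
    have h5 : ((((γ l j : ℤ) : ℝ)) : ℂ) = ((γ l j : ℤ) : ℂ) := by push_cast; rfl
    rw [mulVec_smul, Pi.smul_apply, smul_eq_mul, h4, h5, mul_comm]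
  -- selection
  obtain ⟨σ', hσ1, hσ2⟩ := Pool.T1.MKI.sel e' he'li le_rfl N le_rfl
  let ix : Fin N → Fin M := fun j => finProdFinEquiv (j, ⟨0, hnpos⟩)
  have hix : ∀ j, ((ix j : Fin M) : ℕ) = finrank ℚ K * j := by
    intro j
    simp [ix, finProdFinEquiv]
  have hle : ∀ j, q (σ' j) ≤ q (ix j) := by
    intro j
    apply hmono
    rw [Fin.le_def, hix]
    exact hσ2 j
  refine ⟨Matrix.of fun i j => e' (σ' j) i, fun j => Real.log (q (ix j)) / 2, ?_, ?_, ?_, ?_, ?_⟩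
  · have h3 : LinearIndependent K (Matrix.of fun i j => e' (σ' j) i).col := hσ1
    rw [Matrix.linearIndependent_cols_iff_isUnit] at h3
    exact ((Matrix.isUnit_iff_isUnit_det _).mp h3).ne_zero
  · intro j
    exact he'Λ (σ' j)
  · intro i j hij
    have h1 : q (ix i) ≤ q (ix j) := by
      apply hmono
      rw [Fin.le_def, hix, hix]
      exact Nat.mul_le_mul_left _ hij
    have h2 := Real.log_le_log (hqpos (ix i)) h1
    simp only
    linarith
  · have hlm : Monotone fun i => Real.log (q i) := by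
      intro i j hij
      exact Real.log_le_log (hqpos i) (hmono hij)
    have h3 := sumle (fun i => Real.log (q i)) hlm hnpos
    have h4 : ∑ i, Real.log (q i) = Real.log (∏ i, q i) :=
      (Real.log_prod (fun i _ => (hqpos i).ne')).symm
    have h5 : Real.log (∏ i, q i) ≤ Real.log C1 :=
      Real.log_le_log (Finset.prod_pos fun i _ => hqpos i) hprod1
    have h6 : Real.log C1 ≤ |Real.log C1| := le_abs_self _
    have h7 : 0 ≤ |Real.log C1| := abs_nonneg _
    rw [← Finset.sum_div]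
    set S := ∑ j, Real.log (q (ix j)) with hS
    have h8 : (finrank ℚ K : ℝ) * S ≤ |Real.log C1| := by
      have : (finrank ℚ K : ℝ) * S ≤ ∑ i, Real.log (q i) := h3
      linarith
    by_cases hS0 : S ≤ 0
    · linarith
    · push Not at hS0
      nlinarith
  · intro σ i j
    have h3 : ((g σ)⁻¹ * (Matrix.of fun i j => e' (σ' j) i).map σ) i j =
        Vm g e' (i, σ) (σ' j) := rfl
    rw [h3]
    have h4 : ‖Vm g e' (i, σ) (σ' j)‖ ^ 2 ≤ q (ix j) := by
      refine le_trans ?_ (hle j)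
      rw [hqe]
      exact Finset.single_le_sum (f := fun p => ‖Vm g e' p (σ' j)‖ ^ 2)
        (fun _ _ => by positivity) (Finset.mem_univ (i, σ))
    have h5 : Real.exp (Real.log (q (ix j)) / 2) ^ 2 = q (ix j) := by
      rw [← Real.exp_nat_mul, Nat.cast_ofNat, mul_div_cancel₀ _ (by norm_num : (2 : ℝ) ≠ 0)]
      exact Real.exp_log (hqpos _)
    rw [← h5] at h4
    exact le_of_sq_le_sq h4 (Real.exp_pos _).le

end Pool.NF
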