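import Mathlib
import Pool.Agent.H17.NF.N

/-!
# NF: Hermite's reduction
-/

set_option autoImplicit false

namespace Pool.NF

open Matrix Finset

namespace HER

variable {κ : Type} [Fintype κ] [DecidableEq κ]

/-- The value of a real matrix at an integral vector. -/
def Qf {κ : Type} [Fintype κ] (A : Matrix κ κ ℝ) (v : κ → ℤ) : ℝ :=
  (fun i => (v i : ℝ)) ⬝ᵥ (A *ᵥ fun i => (v i : ℝ))

omit [DecidableEq κ] in
theorem Qf_col (A : Matrix κ κ ℝ) (γ : Matrix κ κ ℤ) (j : κ) :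
    ((γ.map (Int.cast : ℤ → ℝ))ᵀ * A * γ.map (Int.cast : ℤ → ℝ)) j j = Qf A (fun i => γ i j) := by
  rw [Matrix.mul_assoc, Matrix.mul_apply]
  rfl

omit [DecidableEq κ] in
theorem Qf_nonneg (A : Matrix κ κ ℝ) (hA : A.PosDef) (v : κ → ℤ) : 0 ≤ Qf A v := by
  have := hA.posSemidef.dotProduct_mulVec_nonneg (fun i => (v i : ℝ))
  simpa [Qf] using this

omit [DecidableEq κ] in
theorem Qf_smul (A : Matrix κ κ ℝ) (c : ℤ) (v : κ → ℤ) : Qf A (c • v) = (c : ℝ) ^ 2 * Qf A v := by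
  have : (fun i => (((c • v) i : ℤ) : ℝ)) = (c : ℝ) • (fun i => (v i : ℝ)) := by
    ext i
    simp
  rw [Qf, this, mulVec_smul, smul_dotProduct, dotProduct_smul, Qf]
  simp only [smul_eq_mul]
  ring

/-- Cauchy-Schwarz. -/
theorem sq_le (A : Matrix κ κ ℝ) (hA : A.PosDef) (x : κ → ℝ) (i : κ) :
    x i ^ 2 ≤ A⁻¹ i i * (x ⬝ᵥ (A *ᵥ x)) := by
  have hd : 0 < A⁻¹ i i := hA.inv.diag_pos
  have hu : IsUnit A.det := (isUnit_iff_isUnit_det A).1 hA.isUnit
  set u : κ → ℝ := A⁻¹ *ᵥ Pi.single i 1 with hudef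
  have hAu : A *ᵥ u = Pi.single i 1 := by
    rw [hudef, mulVec_mulVec, mul_nonsing_inv A hu, one_mulVec]
  have hui : u i = A⁻¹ i i := by
    rw [hudef]; simp
  have hAT : Aᵀ = A := by
    have := hA.isHermitian
    simpa [Matrix.IsHermitian] using this
  have h1 : u ⬝ᵥ (A *ᵥ x) = x i := by
    rw [dotProduct_mulVec, ← mulVec_transpose, hAT, hAu]; simp
  have h2 : x ⬝ᵥ (A *ᵥ u) = x i := by
    rw [hAu]; simp
  have h3 : u ⬝ᵥ (A *ᵥ u) = A⁻¹ i i := by
    rw [hAu]; simp [hui]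
  set t : ℝ := x i / A⁻¹ i i with ht
  have h4 := hA.posSemidef.dotProduct_mulVec_nonneg (x - t • u)
  have h5 : (x - t • u) ⬝ᵥ (A *ᵥ (x - t • u)) = x ⬝ᵥ (A *ᵥ x) - 2 * t * x i + t ^ 2 * A⁻¹ i i := by
    rw [mulVec_sub, mulVec_smul, sub_dotProduct, dotProduct_sub, dotProduct_sub, smul_dotProduct,
      smul_dotProduct, dotProduct_smul, dotProduct_smul, h1, h2, h3]
    simp only [smul_eq_mul]
    ring
  have h6 : (0 : ℝ) ≤ x ⬝ᵥ (A *ᵥ x) - 2 * t * x i + t ^ 2 * A⁻¹ i i := by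
    rw [← h5]
    simpa using h4
  have h7 : t * A⁻¹ i i = x i := div_mul_cancel₀ _ hd.ne'
  have h8 : A⁻¹ i i * (x ⬝ᵥ (A *ᵥ x) - 2 * t * x i + t ^ 2 * A⁻¹ i i) =
      A⁻¹ i i * (x ⬝ᵥ (A *ᵥ x)) - x i ^ 2 := by
    have e1 : A⁻¹ i i * (x ⬝ᵥ (A *ᵥ x) - 2 * t * x i + t ^ 2 * A⁻¹ i i) =
      A⁻¹ i i * (x ⬝ᵥ (A *ᵥ x)) - 2 * (t * A⁻¹ i i) * x i + (t * A⁻¹ i i) ^ 2 := by ring
    rw [e1, h7]; ring
  have h9 := mul_nonneg hd.le h6
  rw [h8] at h9
  linarith

theorem finite_le (A : Matrix κ κ ℝ) (hA : A.PosDef) (t : ℝ) :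
    {v : κ → ℤ | Qf A v ≤ t}.Finite := by
  obtain ⟨N, hN⟩ : ∃ N : ℕ, ∀ i, A⁻¹ i i * t ≤ N := by
    obtain ⟨N, hN⟩ := exists_nat_ge (∑ i, |A⁻¹ i i * t|)
    exact ⟨N, fun i => (le_abs_self _).trans
      ((Finset.single_le_sum (f := fun i => |A⁻¹ i i * t|) (fun j _ => abs_nonneg _)
        (Finset.mem_univ i)).trans hN)⟩
  refine (Set.finite_Icc (fun _ : κ => -(N : ℤ)) (fun _ => (N : ℤ))).subset ?_
  intro v hv
  have key : ∀ i, (v i) ^ 2 ≤ (N : ℤ) := by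
    intro i
    have h := sq_le A hA (fun i => (v i : ℝ)) i
    have h1 : ((v i : ℝ)) ^ 2 ≤ N := by
      refine h.trans (le_trans ?_ (hN i))
      exact mul_le_mul_of_nonneg_left hv hA.inv.diag_pos.le
    exact_mod_cast h1
  have key2 : ∀ i, |v i| ≤ (N : ℤ) := by
    intro i
    have h := key i
    rcases eq_or_ne (v i) 0 with h0 | h0
    · rw [h0]; simp
    · have h1 : 1 ≤ |v i| := Int.one_le_abs h0
      calc |v i| ≤ |v i| * |v i| := by nlinarith
        _ = (v i) ^ 2 := by rw [← sq, sq_abs]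
        _ ≤ N := h
  exact ⟨fun i => (abs_le.1 (key2 i)).1, fun i => (abs_le.1 (key2 i)).2⟩

theorem exists_min (A : Matrix κ κ ℝ) (hA : A.PosDef) (i0 : κ) :
    ∃ w : κ → ℤ, w ≠ 0 ∧ ∀ v : κ → ℤ, v ≠ 0 → Qf A w ≤ Qf A v := by
  set v0 : κ → ℤ := Pi.single i0 1 with hv0
  have hv00 : v0 ≠ 0 := by
    intro h
    have := congrFun h i0
    simp [hv0] at this
  set S : Set (κ → ℤ) := {v | v ≠ 0 ∧ Qf A v ≤ Qf A v0}
  have hS : S.Finite := (finite_le A hA (Qf A v0)).subset (fun v hv => hv.2)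
  obtain ⟨w, hw, hmin⟩ := Set.exists_min_image S (Qf A) hS ⟨v0, hv00, le_rfl⟩
  refine ⟨w, hw.1, fun v hv => ?_⟩
  by_cases h : Qf A v ≤ Qf A v0
  · exact hmin v ⟨hv, h⟩
  · exact hw.2.trans (le_of_not_ge h)

theorem exists_unimod (A : Matrix κ κ ℝ) (hA : A.PosDef) (i0 : κ) :
    ∃ γ : Matrix κ κ ℤ, IsUnit γ.det ∧
      ∀ v : κ → ℤ, v ≠ 0 → Qf A (fun i => γ i i0) ≤ Qf A v := by
  obtain ⟨w, hw0, hw⟩ := exists_min A hA i0
  obtain ⟨n, S⟩ := Submodule.smithNormalForm (Pi.basisFun ℤ κ) (Submodule.span ℤ {w})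
  have hn : n = 1 := by
    have h1 := Module.finrank_eq_card_basis S.bN
    have h2 := (LinearEquiv.toSpanNonzeroSingleton ℤ (κ → ℤ) w hw0).finrank_eq
    rw [Module.finrank_self] at h2
    rw [Fintype.card_fin] at h1
    exact h1.symm.trans h2.symm
  subst hn
  set u := S.bM (S.f 0) with hu
  obtain ⟨k, hk⟩ : ∃ k : ℤ, w = k • u := by
    have hmem : w ∈ Submodule.span ℤ {w} := Submodule.mem_span_singleton_self w
    have h1 := S.bN.sum_repr ⟨w, hmem⟩
    rw [Fin.sum_univ_one] at h1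
    have h2 := congrArg Subtype.val h1
    rw [Submodule.coe_smul, S.snf 0, smul_smul] at h2
    exact ⟨_, h2.symm⟩
  have hk0 : k ≠ 0 := by
    rintro rfl
    exact hw0 (by rw [hk, zero_smul])
  have hQ : Qf A u ≤ Qf A w := by
    rw [hk, Qf_smul]
    have h1 : (1 : ℝ) ≤ (k : ℝ) ^ 2 := by
      have : (1 : ℤ) ≤ k ^ 2 := by
        have := Int.one_le_abs hk0
        rw [← sq_abs]
        nlinarith
      exact_mod_cast this
    exact le_mul_of_one_le_left (Qf_nonneg A hA u) h1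
  set b := S.bM.reindex (Equiv.swap (S.f 0) i0) with hb
  refine ⟨(Pi.basisFun ℤ κ).toMatrix b, ?_, ?_⟩
  · have := (Pi.basisFun ℤ κ).isUnit_det b
    rwa [Module.Basis.det_apply] at this
  · intro v hv
    have e : (fun i => (Pi.basisFun ℤ κ).toMatrix b i i0) = u := by
      ext i
      rw [Module.Basis.toMatrix_apply, hb, Module.Basis.reindex_apply, Equiv.symm_swap,
        Equiv.swap_apply_right]
      simp [hu]
    rw [e]
    exact hQ.trans (hw v hv)

/-- `Q` of `γ v` in terms of the transformed matrix. -/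
theorem Qf_mulVec (A : Matrix κ κ ℝ) (γ : Matrix κ κ ℤ) (v : κ → ℤ) :
    Qf ((γ.map (Int.cast : ℤ → ℝ))ᵀ * A * γ.map (Int.cast : ℤ → ℝ)) v = Qf A (γ *ᵥ v) := by
  have e : (fun i => (((γ *ᵥ v) i : ℤ) : ℝ)) =
      (γ.map (Int.cast : ℤ → ℝ)) *ᵥ (fun i => (v i : ℝ)) := by
    ext i
    simp [Matrix.mulVec, dotProduct]
  rw [Qf, Qf, e, ← mulVec_mulVec, ← mulVec_mulVec, dotProduct_mulVec, vecMul_transpose]

theorem map_det (γ : Matrix κ κ ℤ) :
    (γ.map (Int.cast : ℤ → ℝ)).det = ((γ.det : ℤ) : ℝ) := by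
  have := RingHom.map_det (Int.castRingHom ℝ) γ
  simpa [RingHom.mapMatrix_apply] using this.symm

theorem unit_sq {z : ℤ} (h : IsUnit z) : ((z : ℝ)) * (z : ℝ) = 1 := by
  have := Int.isUnit_mul_self h
  exact_mod_cast this

theorem posDef_trans (A : Matrix κ κ ℝ) (hA : A.PosDef) (γ : Matrix κ κ ℤ) (hγ : IsUnit γ.det) :
    ((γ.map (Int.cast : ℤ → ℝ))ᵀ * A * γ.map (Int.cast : ℤ → ℝ)).PosDef := by
  have h1 : Function.Injective (γ.map (Int.cast : ℤ → ℝ)).mulVec := by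
    apply Matrix.mulVec_injective_of_isUnit
    rw [isUnit_iff_isUnit_det, map_det]
    exact hγ.map (Int.castRingHom ℝ)
  have h := hA.conjTranspose_mul_mul_same h1
  rwa [conjTranspose_eq_transpose_of_trivial] at h

theorem det_trans (A : Matrix κ κ ℝ) (γ : Matrix κ κ ℤ) (hγ : IsUnit γ.det) :
    ((γ.map (Int.cast : ℤ → ℝ))ᵀ * A * γ.map (Int.cast : ℤ → ℝ)).det = A.det := by
  rw [det_mul, det_mul, det_transpose, map_det]
  calc ((γ.det : ℤ) : ℝ) * A.det * ((γ.det : ℤ) : ℝ)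
      = (((γ.det : ℤ) : ℝ) * ((γ.det : ℤ) : ℝ)) * A.det := by ring
    _ = A.det := by rw [unit_sq hγ, one_mul]

section Step

variable {ι : Type} [Fintype ι] [DecidableEq ι]

theorem step (C : ℝ) (hC : 0 ≤ C)
    (ih : ∀ A : Matrix ι ι ℝ, A.PosDef → ∃ γ : Matrix ι ι ℤ, IsUnit γ.det ∧
      ∏ i, ((γ.map (Int.cast : ℤ → ℝ))ᵀ * A * γ.map (Int.cast : ℤ → ℝ)) i i ≤ C * A.det)
    (A : Matrix (Unit ⊕ ι) (Unit ⊕ ι) ℝ) (hA : A.PosDef) :
    ∃ γ : Matrix (Unit ⊕ ι) (Unit ⊕ ι) ℤ, IsUnit γ.det ∧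
      ∏ i, ((γ.map (Int.cast : ℤ → ℝ))ᵀ * A * γ.map (Int.cast : ℤ → ℝ)) i i ≤
        ((4 / 3) ^ Fintype.card ι * C) * A.det := by
  obtain ⟨γ1, hγ1, hmin⟩ := exists_unimod A hA (Sum.inl ())
  set A1 := (γ1.map (Int.cast : ℤ → ℝ))ᵀ * A * γ1.map (Int.cast : ℤ → ℝ) with hA1
  have hA1p : A1.PosDef := posDef_trans A hA γ1 hγ1
  have hA1d : A1.det = A.det := det_trans A γ1 hγ1
  have hinj : Function.Injective γ1.mulVec := by
    apply Matrix.mulVec_injective_of_isUnit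
    rwa [isUnit_iff_isUnit_det]
  set a : ℝ := A1 (Sum.inl ()) (Sum.inl ()) with ha
  have ha0 : 0 < a := hA1p.diag_pos
  have hmin1 : ∀ v : Unit ⊕ ι → ℤ, v ≠ 0 → a ≤ Qf A1 v := by
    intro v hv
    rw [ha, hA1, Qf_col, Qf_mulVec]
    refine hmin _ ?_
    intro h0
    exact hv (hinj (by rw [h0, mulVec_zero]))
  -- blocks
  set U := A1.toBlocks₁₁ with hU
  set B := A1.toBlocks₁₂ with hB
  set D := A1.toBlocks₂₂ with hD
  have hAT : A1ᵀ = A1 := by
    have := hA1p.isHermitian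
    simpa [Matrix.IsHermitian] using this
  have hBT : A1.toBlocks₂₁ = Bᴴ := by
    ext i j
    rw [conjTranspose_eq_transpose_of_trivial, transpose_apply, hB]
    simp only [toBlocks₂₁, toBlocks₁₂, of_apply]
    conv_lhs => rw [← hAT]
    rfl
  have hA1b : A1 = fromBlocks U B Bᴴ D := by
    rw [← hBT, hU, hB, hD, fromBlocks_toBlocks]
  have hUp : U.PosDef := by
    have := hA1p.submatrix (e := (Sum.inl : Unit → Unit ⊕ ι)) Sum.inl_injective
    exact this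
  haveI : Invertible U := hUp.isUnit.invertible
  have hUd : U.det = a := by
    rw [det_unique]; rfl
  set S := D - Bᴴ * U⁻¹ * B with hS
  have hdet : A1.det = a * S.det := by
    rw [hA1b, det_fromBlocks₁₁, hUd, hS, invOf_eq_nonsing_inv]
  have hSp : S.PosDef := by
    have h1 : S.PosSemidef := by
      rw [hS]
      refine (PosDef.fromBlocks₁₁ B D hUp).1 ?_
      rw [← hA1b]
      exact hA1p.posSemidef
    rw [h1.posDef_iff_det_ne_zero]
    intro h0
    have := hA1p.det_pos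
    rw [hdet, h0, mul_zero] at this
    exact lt_irrefl _ this
  obtain ⟨γ2, hγ2, hprod⟩ := ih S hSp
  -- the translation
  set t : ι → ℝ := fun j => ((U⁻¹ * B) *ᵥ (fun i => (γ2 i j : ℝ))) () with ht
  set m : Matrix Unit ι ℤ := of fun _ j => -round (t j) with hm
  set G : Matrix (Unit ⊕ ι) (Unit ⊕ ι) ℤ := fromBlocks 1 m 0 γ2 with hG
  have hGd : IsUnit G.det := by
    rw [hG, det_fromBlocks_zero₂₁, det_one, one_mul]
    exact hγ2
  have hcol : ∀ j : ι, (fun i => G i (Sum.inr j)) = Sum.elim (fun _ => -round (t j))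
      (fun i => γ2 i j) := by
    intro j
    ext i
    rcases i with i | i <;> simp [hG, hm]
  have hcolne : ∀ j : ι, (fun i => G i (Sum.inr j)) ≠ 0 := by
    intro j h0
    have h1 : ∀ i, G i (Sum.inr j) = 0 := fun i => congrFun h0 i
    have := det_eq_zero_of_column_eq_zero (A := G) (Sum.inr j) h1
    rw [this] at hGd
    exact not_isUnit_zero hGd
  have hval : ∀ j : ι, Qf A1 (fun i => G i (Sum.inr j)) =
      a * (t j - round (t j)) ^ 2 + Qf S (fun i => γ2 i j) := by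
    intro j
    have e1 : (fun i => ((G i (Sum.inr j) : ℤ) : ℝ)) =
        Sum.elim (fun _ : Unit => -((round (t j) : ℤ) : ℝ)) (fun i => (γ2 i j : ℝ)) := by
      have := hcol j
      ext i
      have h2 : G i (Sum.inr j) = Sum.elim (fun _ => -round (t j)) (fun i => γ2 i j) i :=
        congrFun this i
      rw [h2]
      rcases i with i | i <;> simp
    have key := schur_complement_eq₁₁ B D (fun _ : Unit => -((round (t j) : ℤ) : ℝ))
      (fun i => (γ2 i j : ℝ)) hUp.isHermitian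
    rw [← hA1b, ← hS] at key
    simp only [star_trivial] at key
    rw [← dotProduct_mulVec, ← dotProduct_mulVec, ← dotProduct_mulVec] at key
    rw [Qf, e1, key, Qf]
    congr 1
    have e2 : ((fun _ : Unit => -((round (t j) : ℤ) : ℝ)) +
        (U⁻¹ * B) *ᵥ fun i => (γ2 i j : ℝ)) = fun _ : Unit => t j - round (t j) := by
      ext x
      simp only [Pi.add_apply, ht]
      rw [show x = () from rfl]
      ring
    rw [e2]
    have e3 : (fun _ : Unit => t j - (round (t j) : ℝ)) ⬝ᵥ (U *ᵥ fun _ : Unit => t j - (round (t j) : ℝ)) =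
        (t j - (round (t j) : ℝ)) * (U () () * (t j - (round (t j) : ℝ))) := by
      simp [dotProduct, mulVec]
    rw [e3]
    have e4 : U () () = a := rfl
    rw [e4]
    ring
  have hle : ∀ j : ι, Qf A1 (fun i => G i (Sum.inr j)) ≤ (4 / 3) * Qf S (fun i => γ2 i j) := by
    intro j
    have h1 := hmin1 _ (hcolne j)
    have h2 := hval j
    have h3 := abs_sub_round (t j)
    have h4 : (t j - round (t j)) ^ 2 ≤ 1 / 4 := by
      have := abs_le.1 h3
      nlinarith [this.1, this.2]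
    nlinarith
  have hnn : ∀ j : ι, 0 ≤ Qf A1 (fun i => G i (Sum.inr j)) := fun j => Qf_nonneg A1 hA1p _
  refine ⟨γ1 * G, ?_, ?_⟩
  · rw [det_mul]
    exact hγ1.mul hGd
  have hmap : (γ1 * G).map (Int.cast : ℤ → ℝ) =
      γ1.map (Int.cast : ℤ → ℝ) * G.map (Int.cast : ℤ → ℝ) := by
    have := Matrix.map_mul (L := γ1) (M := G) (f := Int.castRingHom ℝ)
    simpa using this
  have hfin : ((γ1 * G).map (Int.cast : ℤ → ℝ))ᵀ * A * (γ1 * G).map (Int.cast : ℤ → ℝ) =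
      (G.map (Int.cast : ℤ → ℝ))ᵀ * A1 * G.map (Int.cast : ℤ → ℝ) := by
    rw [hmap, transpose_mul, hA1]
    simp only [Matrix.mul_assoc]
  rw [hfin, Fintype.prod_sum_type, Fintype.prod_unique]
  have hd0 : ((G.map (Int.cast : ℤ → ℝ))ᵀ * A1 * G.map (Int.cast : ℤ → ℝ)) (Sum.inl default)
      (Sum.inl default) = a := by
    rw [Qf_col]
    have e1 : (fun i => ((G i (Sum.inl default) : ℤ) : ℝ)) = Pi.single (Sum.inl ()) 1 := by
      ext i
      rcases i with i | i <;> simp [hG]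
    rw [Qf, e1]
    simp [ha]
  rw [hd0]
  have hdj : ∀ j : ι, ((G.map (Int.cast : ℤ → ℝ))ᵀ * A1 * G.map (Int.cast : ℤ → ℝ)) (Sum.inr j)
      (Sum.inr j) = Qf A1 (fun i => G i (Sum.inr j)) := fun j => Qf_col _ _ _
  rw [Finset.prod_congr rfl (fun j _ => hdj j)]
  have hp1 : ∏ j, Qf A1 (fun i => G i (Sum.inr j)) ≤ ∏ j, ((4 / 3) * Qf S (fun i => γ2 i j)) :=
    Finset.prod_le_prod (fun j _ => hnn j) (fun j _ => hle j)
  rw [Finset.prod_mul_distrib, Finset.prod_const, Finset.card_univ] at hp1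
  rw [Finset.prod_congr rfl (fun j _ => Qf_col S γ2 j)] at hprod
  calc a * ∏ j, Qf A1 (fun i => G i (Sum.inr j))
      ≤ a * ((4 / 3) ^ Fintype.card ι * ∏ j, Qf S (fun i => γ2 i j)) :=
        mul_le_mul_of_nonneg_left hp1 ha0.le
    _ ≤ a * ((4 / 3) ^ Fintype.card ι * (C * S.det)) := by
        refine mul_le_mul_of_nonneg_left (mul_le_mul_of_nonneg_left hprod (by positivity)) ha0.le
    _ = ((4 / 3) ^ Fintype.card ι * C) * A.det := by
        rw [← hA1d, hdet]; ring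

end Step

/-- The reduction for the index type `ι`, with constant `C`. -/
def Red (ι : Type) [Fintype ι] [DecidableEq ι] (C : ℝ) : Prop :=
  ∀ A : Matrix ι ι ℝ, A.PosDef → ∃ γ : Matrix ι ι ℤ, IsUnit γ.det ∧
    ∏ i, ((γ.map (Int.cast : ℤ → ℝ))ᵀ * A * γ.map (Int.cast : ℤ → ℝ)) i i ≤ C * A.det

theorem red_equiv {ι κ : Type} [Fintype ι] [DecidableEq ι] [Fintype κ] [DecidableEq κ]
    (e : ι ≃ κ) (C : ℝ) (h : Red κ C) : Red ι C := by
  intro A hA
  have hA' : (A.submatrix e.symm e.symm).PosDef := hA.submatrix e.symm.injective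
  obtain ⟨γ, hγ, hp⟩ := h _ hA'
  refine ⟨γ.submatrix e e, ?_, ?_⟩
  · rwa [det_submatrix_equiv_self]
  · rw [det_submatrix_equiv_self] at hp
    refine le_trans (le_of_eq ?_) hp
    have e1 : (((γ.submatrix e e).map (Int.cast : ℤ → ℝ))ᵀ * A *
        (γ.submatrix e e).map (Int.cast : ℤ → ℝ)) =
        ((γ.map (Int.cast : ℤ → ℝ))ᵀ * A.submatrix e.symm e.symm *
          γ.map (Int.cast : ℤ → ℝ)).submatrix e e := by
      have hA2 : A = (A.submatrix e.symm e.symm).submatrix e e := by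
        ext i j; simp
      conv_lhs => rw [hA2]
      rw [← submatrix_map, transpose_submatrix, submatrix_mul_equiv,
        submatrix_mul_equiv]
    rw [e1]
    exact Fintype.prod_equiv e _ _ (fun i => rfl)

theorem red_all (M : ℕ) : ∃ C : ℝ, 0 ≤ C ∧ Red (Fin M) C := by
  induction M with
  | zero =>
    refine ⟨1, zero_le_one, fun A _ => ⟨1, by simp, ?_⟩⟩
    simp
  | succ M ih =>
    obtain ⟨C, hC, h⟩ := ih
    refine ⟨(4 / 3) ^ Fintype.card (Fin M) * C, by positivity, ?_⟩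
    have h1 : Red (Unit ⊕ Fin M) ((4 / 3) ^ Fintype.card (Fin M) * C) :=
      fun A hA => step C hC h A hA
    have e : Fin (M + 1) ≃ Unit ⊕ Fin M :=
      Fintype.equivOfCardEq (by simp [add_comm])
    exact red_equiv e _ h1

end HER

/-- HER. -/
theorem her : HERStmt := by
  intro M
  obtain ⟨C, hC, h⟩ := HER.red_all M
  refine ⟨C, fun A hA => ?_⟩
  obtain ⟨γ, hγ, hp⟩ := h A hA
  set q : Fin M → ℝ := fun i => ((γ.map (Int.cast : ℤ → ℝ))ᵀ * A * γ.map (Int.cast : ℤ → ℝ)) i i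
    with hq
  set σ := Tuple.sort q with hσ
  have hmono : Monotone (q ∘ σ) := Tuple.monotone_sort q
  have e1 : ∀ i, (((γ.submatrix id σ).map (Int.cast : ℤ → ℝ))ᵀ * A *
      (γ.submatrix id σ).map (Int.cast : ℤ → ℝ)) i i = (q ∘ σ) i := by
    intro i
    rw [HER.Qf_col]
    simp only [hq, Function.comp_apply]
    rw [HER.Qf_col]
    rfl
  refine ⟨γ.submatrix id σ, ?_, ?_, ?_⟩
  · rw [Matrix.det_permute']
    exact (Units.isUnit _).map (Int.castRingHom ℤ) |>.mul hγ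
  · intro i j hij
    simp only [e1]
    exact hmono hij
  · rw [Finset.prod_congr rfl (fun i _ => e1 i)]
    have e2 : ∏ i, (q ∘ σ) i = ∏ i, q i := Equiv.prod_comp σ q
    rw [e2]
    exact hp

end Pool.NF
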